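import Pool.Agent.P.MP_29cb78_nt.E2.Sqz

/-!
The extremal lemma: functions with values in a valued field whose convolution square is small.
-/

namespace Pool.Agent.P.MP_29cb78_nt.E2

open Finset IsLocalRing
open scoped Classical

noncomputable section

variable {K G : Type*} [Field K] [AddCommGroup G] [Fintype G] (O : ValuationSubring K)

/-- The residue, extended by zero. -/
def rs (x : K) : ResidueField O := if h : x ∈ O then residue O ⟨x, h⟩ else 0

lemma rs_coe (x : O) : rs O x = residue O x := dif_pos x.2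

lemma rs_eq_zero {x : K} (hx : O.valuation x ≤ 1) : rs O x = 0 ↔ O.valuation x < 1 := by
  lift x to O using (O.valuation_le_one_iff x).1 hx
  rw [rs_coe, residue_eq_zero_iff, O.valuation_lt_one_iff]

lemma charP_res {p : ℕ} (hp : p.Prime) (h : O.valuation p < 1) : CharP (ResidueField O) p := by
  rw [CharP.charP_iff_prime_eq_zero hp, ← map_natCast (residue O), ← rs_coe, rs_eq_zero O]
  · exact h
  · exact h.le

lemma rs_conv {R : G → K} (hR : ∀ x, O.valuation (R x) ≤ 1) (σ : G)
    (h : O.valuation (∑ x, R x * R (σ - x)) < 1) : ∑ x, rs O (R x) * rs O (R (σ - x)) = 0 := by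
  lift R to G → O using fun x => (O.valuation_le_one_iff _).1 (hR x)
  simp only [rs_coe, ← map_mul, ← map_sum]
  rw [residue_eq_zero_iff, O.valuation_lt_one_iff]
  simpa using h

variable {p : ℕ} (hp : p.Prime) (hp2 : p ≠ 2) (hO : O.valuation p < 1) {τ : G}
  (hτ : addOrderOf τ = p) (hc : ∀ x : G, p • x = 0 → x ∈ AddSubgroup.zmultiples τ)

include hp hp2 hO hτ hc

/-- The largest value is taken at more than half of the points of a coset. -/
lemma top_card {R : G → K} {c : K} (hc0 : c ≠ 0) (hR : ∀ x, O.valuation (R x) ≤ O.valuation c)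
    (h : ∀ σ, O.valuation (∑ x, R x * R (σ - x)) < O.valuation c ^ 2) {x : G}
    (hx : O.valuation (R x) = O.valuation c) :
    2 * #{j ∈ range p | O.valuation (R (x + j • τ)) ≠ O.valuation c} < p := by
  have := Fact.mk hp
  have := charP_res O hp hO
  have hv : 0 < O.valuation c := by simpa [zero_lt_iff] using hc0
  have h1 : ∀ y, O.valuation (R y / c) ≤ 1 := fun y => by
    rw [map_div₀, div_le_one₀ hv]
    exact hR y
  have h2 : ∀ y, rs O (R y / c) = 0 ↔ O.valuation (R y) ≠ O.valuation c := fun y => by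
    rw [rs_eq_zero O (h1 y), map_div₀, div_lt_one₀ hv, lt_iff_le_and_ne]
    exact and_iff_right (hR y)
  have := sqz_supp p hp2 hτ hc (r := fun y => rs O (R y / c)) (x := x)
    (fun σ => rs_conv O h1 σ ?_) (by rw [Ne, h2]; exact fun h => h hx)
  · simpa only [h2] using this
  · simp only [div_mul_div_comm, ← Finset.sum_div]
    rw [map_div₀, map_mul, div_lt_one₀ (mul_pos hv hv), ← sq]
    exact h σ

/-- The product over a coset through an extremal point is larger than the maximum. -/
theorem top_lt_prod {R R' : G → K} {x : G} (hRR : ∀ y, O.valuation (R y) * O.valuation (R' y) = 1)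
    (h1 : 1 < O.valuation (R x)) (hR : ∀ y, O.valuation (R y) ≤ O.valuation (R x))
    (hR' : ∀ y, O.valuation (R' y) ≤ O.valuation (R x))
    (h : ∀ σ, O.valuation (∑ y, R y * R (σ - y)) < O.valuation (R x) ^ 2)
    (h' : ∀ σ, O.valuation (∑ y, R' y * R' (σ - y)) < O.valuation (R x) ^ 2) :
    O.valuation (R x) < ∏ j ∈ range p, O.valuation (R (x + j • τ)) := by
  have hx0 : R x ≠ 0 := fun h0 => by simp [h0] at h1
  set ω := O.valuation (R x) with hω
  have hω0 : 0 < ω := zero_lt_one.trans h1
  set f : ℕ → O.ValueGroup := fun j => O.valuation (R (x + j • τ)) with hf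
  have hA : 2 * #{j ∈ range p | O.valuation (R (x + j • τ)) ≠ ω} < p :=
    top_card O hp hp2 hO hτ hc hx0 hR h rfl
  have hpτ : p • τ = 0 := by rw [← hτ, addOrderOf_nsmul_eq_zero]
  have hB : ∀ j, 1 < f j * ω := fun j => by
    have h2 : O.valuation (R' (x + j • τ)) ≠ ω := fun h2 => by
      have hB : 2 * #{i ∈ range p | O.valuation (R' (x + j • τ + i • τ)) ≠ ω} < p :=
        top_card O hp hp2 hO hτ hc hx0 hR' h' h2
      have h3 : range p ⊆ {i ∈ range p | O.valuation (R' (x + j • τ + i • τ)) ≠ ω} ∪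
          {i ∈ range p | O.valuation (R (x + j • τ + i • τ)) ≠ ω} := fun i hi => by
        by_contra h4
        simp only [mem_union, mem_filter, hi, true_and, not_or, not_not] at h4
        have := hRR (x + j • τ + i • τ)
        rw [h4.1, h4.2] at this
        exact (one_lt_mul'' h1 h1).ne' this
      have h4 : #{i ∈ range p | O.valuation (R (x + j • τ + i • τ)) ≠ ω} ≤
          #{i ∈ range p | O.valuation (R (x + i • τ)) ≠ ω} := by
        refine card_le_card_of_injOn (fun i => (j + i) % p) (fun i hi => ?_) fun i hi i' hi' hh => ?_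
        · have hi' := (mem_filter.1 hi).2
          refine mem_filter.2 ⟨mem_range.2 (Nat.mod_lt _ hp.pos), ?_⟩
          rwa [← hτ, mod_addOrderOf_nsmul, add_nsmul, ← add_assoc]
        · exact Nat.ModEq.eq_of_lt_of_lt (Nat.ModEq.add_left_cancel' j hh)
            (mem_range.1 (mem_filter.1 hi).1) (mem_range.1 (mem_filter.1 hi').1)
      have h5 := (card_le_card h3).trans (card_union_le _ _)
      rw [card_range] at h5
      omega
    have h3 := hRR (x + j • τ)
    have h4 : 0 < f j := zero_lt_iff.2 (left_ne_zero_of_mul_eq_one h3)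
    rw [← h3]
    exact mul_lt_mul_of_pos_left (lt_of_le_of_ne (hR' _) h2) h4
  set B := {j ∈ range p | f j ≠ ω} with hBd
  have hA' : 2 * #B < p := hA
  have h2 : ∏ j ∈ range p, f j = (∏ j ∈ B, f j) * ω ^ (p - #B) := by
    rw [← prod_filter_mul_prod_filter_not (range p) fun j => f j ≠ ω]
    congr 1
    rw [prod_congr rfl (g := fun _ => ω) fun j hj => not_not.1 (mem_filter.1 hj).2, prod_const]
    congr 1
    have := card_filter_add_card_filter_not (s := range p) fun j => f j ≠ ω
    rw [card_range] at this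
    exact Nat.eq_sub_of_add_eq' this
  have h3 : 1 ≤ (∏ j ∈ B, f j) * ω ^ #B := by
    rw [← prod_const, ← prod_mul_distrib]
    exact one_le_prod' fun j _ => (hB j).le
  obtain ⟨b, hb⟩ := hp.odd_of_ne_two hp2
  rw [h2]
  rcases B.eq_empty_or_nonempty with h4 | h4
  · rw [h4, prod_empty, one_mul, card_empty]
    exact lt_self_pow₀ h1 (by simpa using hp.one_lt)
  · have h5 : 1 < (∏ j ∈ B, f j) * ω ^ #B := by
      obtain ⟨i, hi⟩ := h4
      rw [← prod_const, ← prod_mul_distrib, ← mul_prod_erase B _ hi]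
      exact one_lt_mul_of_lt_of_le' (hB i) (one_le_prod' fun j _ => (hB j).le)
    have h6 : ω ≤ ω ^ (p - #B - #B) := le_self_pow₀ h1.le (by omega)
    rw [show p - #B = #B + (p - #B - #B) by omega, pow_add, ← mul_assoc]
    exact h6.trans_lt (lt_mul_of_one_lt_left (pow_pos hω0 _) h5)

/-- Units are invariant modulo the maximal ideal. -/
theorem const_mod {R : G → K} (hR : ∀ y, O.valuation (R y) = 1)
    (h : ∀ σ, O.valuation (∑ y, R y * R (σ - y)) < 1)
    (h' : ∀ σ, O.valuation (∑ y, (R y)⁻¹ * (R (σ - y))⁻¹) < 1) (x : G) :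
    O.valuation (R (x + τ) - R x) < 1 := by
  have := Fact.mk hp
  have := charP_res O hp hO
  have hR' : ∀ y, O.valuation (R y)⁻¹ ≤ 1 := fun y => by rw [map_inv₀, hR, inv_one]
  have h1 := sqz_const p hp2 hτ hc (fun σ => rs_conv O (fun y => (hR y).le) σ (h σ))
    (fun σ => rs_conv O (R := fun y => (R y)⁻¹) hR' σ (h' σ)) (fun y => ?_) x
  · lift R to G → O using fun x => (O.valuation_le_one_iff _).1 (hR x).le
    rw [rs_coe, rs_coe, ← sub_eq_zero, ← map_sub, residue_eq_zero_iff, O.valuation_lt_one_iff] at h1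
    simpa using h1
  · have h0 : R y ≠ 0 := fun h0 => by simpa [h0] using hR y
    have h2 := rs_coe O ⟨R y, (O.valuation_le_one_iff _).1 (hR y).le⟩
    have h3 := rs_coe O ⟨(R y)⁻¹, (O.valuation_le_one_iff _).1 (hR' y)⟩
    simp only at h2 h3
    rw [h2, h3, ← map_mul, ← map_one (residue O)]
    congr 1
    exact Subtype.ext (mul_inv_cancel₀ h0)

end

end Pool.Agent.P.MP_29cb78_nt.E2
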