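import Pool.Agent.P.MP_29cb78_nt.E2.Poly
import Pool.Agent.P.MP_29cb78_nt.F.Defs

/-!
Multiplicative form of the finite difference calculus.
-/

namespace Pool.Agent.P.MP_29cb78_nt.E2

open Finset
open Pool.Agent.P.MP_29cb78_nt.E (tt cc)
open Pool.Agent.P.MP_29cb78_nt.F (FF Cub1 Cub2)
open scoped Classical

noncomputable section

section Field

variable {K : Type*} [Field K]

/-- A nonzero element, written additively. -/
def lg (x : K) : Additive Kˣ := if h : x = 0 then 0 else Additive.ofMul (Units.mk0 x h)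

/-- The inverse map. -/
def ex (a : Additive Kˣ) : K := (a.toMul : Kˣ)

theorem ex_ne (a : Additive Kˣ) : ex a ≠ 0 := Units.ne_zero _

theorem ex_lg {x : K} (h : x ≠ 0) : ex (lg x) = x := by simp [ex, lg, h]

theorem ex_inj : Function.Injective (ex : Additive Kˣ → K) := fun _ _ h =>
  Additive.toMul.injective (Units.ext h)

@[simp] theorem lg_ex (a : Additive Kˣ) : lg (ex a) = a := ex_inj (ex_lg (ex_ne a))

@[simp] theorem ex_zero : ex (0 : Additive Kˣ) = 1 := rfl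

theorem ex_add (a b : Additive Kˣ) : ex (a + b) = ex a * ex b := by simp [ex]

theorem ex_neg (a : Additive Kˣ) : ex (-a) = (ex a)⁻¹ := by simp [ex]

theorem ex_sub (a b : Additive Kˣ) : ex (a - b) = ex a / ex b := by simp [ex]

theorem ex_zsmul (k : ℤ) (a : Additive Kˣ) : ex (k • a) = ex a ^ k := by simp [ex]

theorem ex_nsmul (k : ℕ) (a : Additive Kˣ) : ex (k • a) = ex a ^ k := by simp [ex]

theorem ex_sum {ι : Type*} (s : Finset ι) (a : ι → Additive Kˣ) :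
    ex (∑ i ∈ s, a i) = ∏ i ∈ s, ex (a i) := by simp [ex]

theorem lg_inj {x y : K} (hx : x ≠ 0) (hy : y ≠ 0) (h : lg x = lg y) : x = y := by
  rw [← ex_lg hx, h, ex_lg hy]

@[simp] theorem lg_one : lg (1 : K) = 0 := by rw [← ex_zero, lg_ex]

@[simp] theorem lg_zero : lg (0 : K) = 0 := dif_pos rfl

theorem lg_mul {x y : K} (hx : x ≠ 0) (hy : y ≠ 0) : lg (x * y) = lg x + lg y :=
  ex_inj (by rw [ex_add, ex_lg hx, ex_lg hy, ex_lg (mul_ne_zero hx hy)])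

theorem lg_inv (x : K) : lg x⁻¹ = -lg x := by
  by_cases hx : x = 0
  · simp [hx]
  · exact ex_inj (by rw [ex_neg, ex_lg hx, ex_lg (inv_ne_zero hx)])

theorem lg_div {x y : K} (hx : x ≠ 0) (hy : y ≠ 0) : lg (x / y) = lg x - lg y := by
  rw [div_eq_mul_inv, lg_mul hx (inv_ne_zero hy), lg_inv, sub_eq_add_neg]

theorem lg_zpow {x : K} (hx : x ≠ 0) (k : ℤ) : lg (x ^ k) = k • lg x :=
  ex_inj (by rw [ex_zsmul, ex_lg hx, ex_lg (zpow_ne_zero k hx)])

theorem lg_pow {x : K} (hx : x ≠ 0) (k : ℕ) : lg (x ^ k) = k • lg x :=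
  ex_inj (by rw [ex_nsmul, ex_lg hx, ex_lg (pow_ne_zero k hx)])

theorem lg_prod {ι : Type*} (s : Finset ι) {x : ι → K} (hx : ∀ i ∈ s, x i ≠ 0) :
    lg (∏ i ∈ s, x i) = ∑ i ∈ s, lg (x i) :=
  ex_inj (by
    rw [ex_sum, ex_lg (prod_ne_zero_iff.2 hx)]
    exact prod_congr rfl fun i hi => (ex_lg (hx i hi)).symm)

/-- The valuation, written additively. -/
def vl (O : ValuationSubring K) : Additive Kˣ →+ Additive (O.ValueGroup)ˣ :=
  MonoidHom.toAdditive (Units.map O.valuation.toMonoidWithZeroHom.toMonoidHom)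

theorem ex_vl (O : ValuationSubring K) (a : Additive Kˣ) :
    ((vl O a).toMul : (O.ValueGroup)ˣ) = O.valuation (ex a) := rfl

theorem vl_eq_zero (O : ValuationSubring K) (a : Additive Kˣ) :
    vl O a = 0 ↔ O.valuation (ex a) = 1 := by
  rw [← ex_vl, Units.val_eq_one]
  rfl

/-- The elements congruent to one. -/
def one1 (O : ValuationSubring K) : AddSubgroup (Additive Kˣ) :=
  O.principalUnitGroup.toAddSubgroup

theorem mem_one1 (O : ValuationSubring K) (a : Additive Kˣ) :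
    a ∈ one1 O ↔ O.valuation (ex a - 1) < 1 := Iff.rfl

end Field

/-- The exponential as a homomorphism. -/
def expHom : ℂ →+ Additive ℂˣ := AddMonoidHom.mk' (fun z => lg (Complex.exp z)) fun z w => by
  rw [Complex.exp_add, lg_mul (Complex.exp_ne_zero _) (Complex.exp_ne_zero _)]

theorem lg_exp (z : ℂ) : lg (Complex.exp z) = expHom z := rfl

theorem ex_expHom (z : ℂ) : ex (expHom z) = Complex.exp z := ex_lg (Complex.exp_ne_zero z)

theorem lg_exp_mul (z : ℂ) {x : ℂ} (hx : x ≠ 0) : lg (Complex.exp z * x) = expHom z + lg x :=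
  lg_mul (Complex.exp_ne_zero z) hx

theorem lg_FF (N : ℕ) {f : ℤ → ℂ} (h : ∀ j, f (tt N j) ≠ 0 ∧ f (-tt N j) ≠ 0) :
    lg (FF N f) = Fa N fun t => lg (f t) := by
  rw [FF, lg_prod _ fun j _ => zpow_ne_zero _ (div_ne_zero (h j).1 (h j).2), Fa]
  exact sum_congr rfl fun j _ => by
    rw [lg_zpow (div_ne_zero (h j).1 (h j).2), lg_div (h j).1 (h j).2]

theorem FF_ne (N : ℕ) {f : ℤ → ℂ} (h : ∀ j, f (tt N j) ≠ 0 ∧ f (-tt N j) ≠ 0) : FF N f ≠ 0 :=
  prod_ne_zero_iff.2 fun j _ => zpow_ne_zero _ (div_ne_zero (h j).1 (h j).2)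

theorem FF_eq (N : ℕ) {f : ℤ → ℂ} (h : ∀ j, f (tt N j) ≠ 0 ∧ f (-tt N j) ≠ 0) :
    FF N f = ex (Fa N fun t => lg (f t)) := by rw [← lg_FF N h, ex_lg (FF_ne N h)]

theorem FF_congr (N : ℕ) {f g : ℤ → ℂ}
    (h : ∀ j, f (tt N j) = g (tt N j) ∧ f (-tt N j) = g (-tt N j)) : FF N f = FF N g :=
  prod_congr rfl fun j _ => by rw [(h j).1, (h j).2]

theorem FF_mul (N : ℕ) (f g : ℤ → ℂ) : FF N (fun t => f t * g t) = FF N f * FF N g := by
  simp only [FF, ← prod_mul_distrib, ← mul_zpow, mul_div_mul_comm]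

theorem FF_inv (N : ℕ) (f : ℤ → ℂ) : FF N (fun t => (f t)⁻¹) = (FF N f)⁻¹ := by
  simp only [FF, ← prod_inv_distrib, ← inv_zpow, inv_div_inv, inv_div]

theorem FF_pow (N : ℕ) (f : ℤ → ℂ) (k : ℕ) : FF N (fun t => f t ^ k) = FF N f ^ k := by
  simp only [FF, ← prod_pow, ← div_pow]
  exact prod_congr rfl fun j _ => by
    rw [← zpow_natCast, ← zpow_natCast, ← zpow_mul, ← zpow_mul, mul_comm]

theorem FF_prod {ι : Type*} (N : ℕ) (s : Finset ι) (f : ι → ℤ → ℂ) :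
    FF N (fun t => ∏ i ∈ s, f i t) = ∏ i ∈ s, FF N (f i) := by
  simp only [FF, ← prod_div_distrib, ← prod_zpow]
  exact prod_comm

theorem FF_pre_neg (N : ℕ) (f : ℤ → ℂ) : FF N (fun t => f (-t)) = (FF N f)⁻¹ := by
  simp only [FF, neg_neg, ← prod_inv_distrib, ← inv_zpow, inv_div]

theorem FF_exp (N : ℕ) {P : ℤ → ℂ} (hP : PolyLE 3 P) : FF N (fun t => Complex.exp (P t)) = 1 := by
  rw [FF_eq N fun j => ⟨Complex.exp_ne_zero _, Complex.exp_ne_zero _⟩]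
  exact congrArg ex (Fa_kill N (hP.post expHom))

theorem FF_kill (N : ℕ) {f : ℤ → ℂ} (h0 : ∀ t, f t ≠ 0) (h : PolyLE 3 fun t => lg (f t)) :
    FF N f = 1 := by
  rw [FF_eq N fun j => ⟨h0 _, h0 _⟩]
  exact congrArg ex (Fa_kill N h)

variable {H : Type*} [AddCommGroup H]

theorem poly_quad (b : H →+ H →+ ℂ) (l : H →+ ℂ) (c : ℂ) : PolyLE 2 fun x => b x x + l x + c :=
  ((PolyLE.bil b PolyLE.id' PolyLE.id').add ((PolyLE.hom l).mono one_le_two)).add
    (PolyLE.const 2 c)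

theorem poly_cast : PolyLE 1 fun t : ℤ => (t : ℂ) := PolyLE.hom (Int.castAddHom ℂ)

theorem poly_mono (c : ℂ) {k n : ℕ} (h : k ≤ n) : PolyLE n fun t : ℤ => c * (t : ℂ) ^ k :=
  ((PolyLE.const 0 c).mul (poly_cast.pow k)).mono (by omega)

theorem poly_mono2 (c : ℂ) {k l n : ℕ} (h : k + l ≤ n) :
    PolyLE n fun z : ℤ × ℤ => c * (z.1 : ℂ) ^ k * (z.2 : ℂ) ^ l :=
  (((poly_mono c le_rfl).pre (AddMonoidHom.fst ℤ ℤ)).mul
    ((poly_cast.pow l).pre (AddMonoidHom.snd ℤ ℤ))).mono (by omega)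

theorem poly_Cub1 {P : ℤ → ℂ} (h : Cub1 P) : PolyLE 3 P := by
  obtain ⟨c₀, c₁, c₂, c₃, h⟩ := h
  refine ((((PolyLE.const 3 c₀).add (poly_mono c₁ (k := 1) (by omega))).add
    (poly_mono c₂ (k := 2) (by omega))).add (poly_mono c₃ le_rfl)).congr fun t => ?_
  rw [h, pow_one]

theorem poly_Cub2 {P : ℤ → ℤ → ℂ} (h : Cub2 P) : PolyLE 3 fun z : ℤ × ℤ => P z.1 z.2 := by
  obtain ⟨c, h⟩ := h
  refine (PolyLE.sum univ fun i _ => poly_mono2 (c i) (k := ![0, 1, 0, 2, 1, 0, 3, 2, 1, 0] i)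
    (l := ![0, 0, 1, 0, 1, 2, 0, 1, 2, 3] i) (n := 3) (by fin_cases i <;> simp)).congr fun z => ?_
  rw [h]
  simp [Fin.sum_univ_succ]
  ring

/-- Quadratic multipliers along `L`. -/
theorem qcub_of_exp {L : AddSubgroup H} {f : H → ℂ} (h0 : ∀ x, f x ≠ 0)
    (h : ∀ w ∈ L, ∃ (b : H →+ H →+ ℂ) (l : H →+ ℂ) (c : ℂ),
      ∀ x, f (x + w) = Complex.exp (b x x + l x + c) * f x) : QCub L fun x => lg (f x) := by
  intro w hw
  obtain ⟨b, l, c, h⟩ := h w hw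
  refine ((poly_quad b l c).post expHom).congr fun x => ?_
  beta_reduce
  rw [h, lg_exp_mul _ (h0 x), add_sub_cancel_right]

theorem FF_DD (N : ℕ) {f : H → ℂ} (h0 : ∀ x, f x ≠ 0) (x : H) :
    FF N (fun t => f (t • x)) = ex (DD N (fun y => lg (f y)) x) :=
  FF_eq N fun _ => ⟨h0 _, h0 _⟩

end

end Pool.Agent.P.MP_29cb78_nt.E2
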