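import Pool.Agent.P.MP_29cb78_nt.E.Defs

/-!
Polynomial maps between abelian groups, defined through finite differences.
-/

namespace Pool.Agent.P.MP_29cb78_nt.E2

open Finset
open Pool.Agent.P.MP_29cb78_nt.E (tt cc)

variable {H H' B B' B'' : Type*} [AddCommGroup H] [AddCommGroup H'] [AddCommGroup B]
  [AddCommGroup B'] [AddCommGroup B'']

/-- All `(n + 1)`-fold differences of `f` vanish. -/
def PolyLE : ℕ → (H → B) → Prop
  | 0, f => ∀ x y, f x = f y
  | n + 1, f => ∀ a, PolyLE n fun x => f (x + a) - f x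

theorem polyLE_zero {f : H → B} : PolyLE 0 f ↔ ∀ x y, f x = f y := Iff.rfl

theorem polyLE_succ {n : ℕ} {f : H → B} :
    PolyLE (n + 1) f ↔ ∀ a, PolyLE n fun x => f (x + a) - f x := Iff.rfl

namespace PolyLE

theorem congr {n : ℕ} {f g : H → B} (h : PolyLE n f) (e : ∀ x, f x = g x) : PolyLE n g :=
  (funext e : f = g) ▸ h

theorem const (n : ℕ) (c : B) : PolyLE n fun _ : H => c := by
  induction n generalizing c with
  | zero => exact fun _ _ => rfl
  | succ n ih => exact fun _ => ih _

theorem add {n : ℕ} {f g : H → B} (hf : PolyLE n f) (hg : PolyLE n g) :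
    PolyLE n fun x => f x + g x := by
  induction n generalizing f g with
  | zero => exact fun x y => by beta_reduce; rw [hf x y, hg x y]
  | succ n ih => exact fun a => (ih (hf a) (hg a)).congr fun x => by beta_reduce; abel

theorem post {n : ℕ} {f : H → B} (hf : PolyLE n f) (ψ : B →+ B') : PolyLE n fun x => ψ (f x) := by
  induction n generalizing f with
  | zero => exact fun x y => by beta_reduce; rw [hf x y]
  | succ n ih => exact fun a => (ih (hf a)).congr fun x => by beta_reduce; rw [map_sub]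

theorem neg {n : ℕ} {f : H → B} (hf : PolyLE n f) : PolyLE n fun x => -f x :=
  hf.post (negAddMonoidHom)

theorem sub {n : ℕ} {f g : H → B} (hf : PolyLE n f) (hg : PolyLE n g) :
    PolyLE n fun x => f x - g x :=
  (hf.add hg.neg).congr fun x => by abel

theorem zsmul {n : ℕ} {f : H → B} (hf : PolyLE n f) (k : ℤ) : PolyLE n fun x => k • f x :=
  hf.post (zsmulAddGroupHom k)

theorem nsmul {n : ℕ} {f : H → B} (hf : PolyLE n f) (k : ℕ) : PolyLE n fun x => k • f x :=
  hf.post (nsmulAddMonoidHom k)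

theorem sum {ι : Type*} {n : ℕ} {f : ι → H → B} (s : Finset ι) (hf : ∀ i ∈ s, PolyLE n (f i)) :
    PolyLE n fun x => ∑ i ∈ s, f i x := by
  classical
  induction s using Finset.induction_on with
  | empty => simpa using const n (0 : B)
  | insert i s hi ih =>
    exact ((hf i (mem_insert_self _ _)).add (ih fun j hj => hf j (mem_insert_of_mem hj))).congr
      fun x => by rw [sum_insert hi]

theorem aff {n : ℕ} {f : H → B} (hf : PolyLE n f) (φ : H' →+ H) (c : H) :
    PolyLE n fun x => f (φ x + c) := by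
  induction n generalizing f with
  | zero => exact fun x y => hf _ _
  | succ n ih =>
    exact fun a => (ih (hf (φ a))).congr fun x => by beta_reduce; rw [map_add, add_right_comm]

theorem aff' {n : ℕ} {f : H → B} (hf : PolyLE n f) (φ : H' →+ H) (c : H) :
    PolyLE n fun x => f (c + φ x) :=
  (hf.aff φ c).congr fun x => by rw [add_comm]

theorem pre {n : ℕ} {f : H → B} (hf : PolyLE n f) (φ : H' →+ H) : PolyLE n fun x => f (φ x) :=
  (hf.aff φ 0).congr fun x => by rw [add_zero]

theorem shift {n : ℕ} {f : H → B} (hf : PolyLE n f) (c : H) : PolyLE n fun x => f (x + c) :=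
  hf.aff (AddMonoidHom.id H) c

theorem pre_neg {n : ℕ} {f : H → B} (hf : PolyLE n f) : PolyLE n fun x => f (-x) :=
  hf.pre negAddMonoidHom

theorem pre_zsmul {n : ℕ} {f : H → B} (hf : PolyLE n f) (k : ℤ) : PolyLE n fun x => f (k • x) :=
  hf.pre (zsmulAddGroupHom k)

/-- Restriction to an arithmetic progression. -/
theorem line {n : ℕ} {f : H → B} (hf : PolyLE n f) (x a : H) :
    PolyLE n fun t : ℤ => f (x + t • a) :=
  hf.aff' (zmultiplesHom H a) x

theorem succ {n : ℕ} {f : H → B} (hf : PolyLE n f) : PolyLE (n + 1) f := by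
  induction n generalizing f with
  | zero => exact fun a x y => by beta_reduce; rw [hf (x + a) x, hf (y + a) y, sub_self, sub_self]
  | succ n ih => exact fun a => ih (hf a)

theorem mono {m n : ℕ} {f : H → B} (hf : PolyLE m f) (h : m ≤ n) : PolyLE n f := by
  induction h with
  | refl => exact hf
  | step _ ih => exact ih.succ

theorem hom (φ : H →+ B) : PolyLE 1 φ := fun a x y => by simp

theorem id' : PolyLE 1 fun x : H => x := hom (AddMonoidHom.id H)

/-- The difference of a polynomial map has lower degree (with truncated subtraction). -/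
theorem diff {n : ℕ} {f : H → B} (hf : PolyLE n f) (a : H) :
    PolyLE (n - 1) fun x => f (x + a) - f x := by
  cases n with
  | zero => exact hf.succ a
  | succ n => exact hf a

theorem iter {n : ℕ} {f : H → B} (hf : PolyLE n f) (a : H) (k : ℕ) :
    PolyLE (n - k) ((fwdDiff a)^[k] f) := by
  induction k with
  | zero => exact hf
  | succ k ih =>
    rw [Function.iterate_succ_apply', ← Nat.sub_sub]
    exact ih.diff a

/-- Products. -/
theorem bil (β : B →+ B' →+ B'') {m n : ℕ} {f : H → B} {g : H → B'} (hf : PolyLE m f)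
    (hg : PolyLE n g) : PolyLE (m + n) fun x => β (f x) (g x) := by
  induction m generalizing f n g with
  | zero =>
    rw [zero_add]
    exact (hg.post (β (f 0))).congr fun x => by rw [hf 0 x]
  | succ m ihm =>
    induction n generalizing g with
    | zero => exact (hf.post (β.flip (g 0))).congr fun x => by rw [hg 0 x]; rfl
    | succ n ihn =>
      intro a
      have h1 := ihm (hf a) (hg.shift a)
      have h2 := ihn (hg a)
      rw [show m + (n + 1) = m + 1 + n by omega] at h1
      refine (h1.add h2).congr fun x => ?_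
      simp only [map_sub, AddMonoidHom.sub_apply]
      abel

theorem mul {R : Type*} [NonUnitalNonAssocRing R] {m n : ℕ} {f g : H → R} (hf : PolyLE m f)
    (hg : PolyLE n g) : PolyLE (m + n) fun x => f x * g x :=
  bil AddMonoidHom.mul hf hg

theorem smul {m n : ℕ} {f : H → ℤ} {g : H → B} (hf : PolyLE m f) (hg : PolyLE n g) :
    PolyLE (m + n) fun x => f x • g x :=
  bil (smulAddHom ℤ B) hf hg

theorem pow {R : Type*} [Ring R] {m : ℕ} {f : H → R} (hf : PolyLE m f) (k : ℕ) :
    PolyLE (m * k) fun x => f x ^ k := by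
  induction k with
  | zero => simpa using const 0 (1 : R)
  | succ k ih => exact (ih.mul hf).congr fun x => by rw [pow_succ]

/-- Cancellation of an injective homomorphism. -/
theorem of_post {n : ℕ} {f : H → B} (ψ : B →+ B') (hψ : Function.Injective ψ)
    (hf : PolyLE n fun x => ψ (f x)) : PolyLE n f := by
  induction n generalizing f with
  | zero => exact fun x y => hψ (hf x y)
  | succ n ih => exact fun a => ih ((hf a).congr fun x => by beta_reduce; rw [map_sub])

/-- Descent along a surjective homomorphism. -/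
theorem of_pre {n : ℕ} {f : H → B} (φ : H' →+ H) (hφ : Function.Surjective φ)
    (hf : PolyLE n fun x => f (φ x)) : PolyLE n f := by
  induction n generalizing f with
  | zero =>
    intro x y
    obtain ⟨x, rfl⟩ := hφ x
    obtain ⟨y, rfl⟩ := hφ y
    exact hf x y
  | succ n ih =>
    intro a
    obtain ⟨a, rfl⟩ := hφ a
    exact ih ((hf a).congr fun x => by beta_reduce; rw [map_add])

/-- It suffices to test differences along generators. -/
theorem of_closure {n : ℕ} {f : H → B} {S : Set H} (hS : AddSubgroup.closure S = ⊤)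
    (h : ∀ a ∈ S, PolyLE n fun x => f (x + a) - f x) : PolyLE (n + 1) f := by
  intro a
  have ha : a ∈ AddSubgroup.closure S := hS ▸ AddSubgroup.mem_top a
  induction ha using AddSubgroup.closure_induction with
  | mem a ha => exact h a ha
  | zero => simpa using const n (0 : B)
  | add a b _ _ ha hb =>
    exact ((ha.shift b).add hb).congr fun x => by rw [add_right_comm, add_assoc x a b]; abel
  | neg a _ ha => exact (ha.shift (-a)).neg.congr fun x => by simp

/-- On the integers one difference suffices. -/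
theorem of_int {n : ℕ} {f : ℤ → B} (h : PolyLE n fun t => f (t + 1) - f t) : PolyLE (n + 1) f :=
  of_closure (S := {1}) (by rw [← AddSubgroup.zmultiples_eq_closure, Int.zmultiples_one])
    fun a ha => by rw [Set.mem_singleton_iff.1 ha]; exact h

theorem choose (k : ℕ) : PolyLE k fun t : ℤ => Ring.choose t k := by
  induction k with
  | zero => exact fun x y => by simp
  | succ k ih => exact of_int (ih.congr fun t => by rw [Ring.choose_succ_succ]; ring)

/-- A function on a product that is polynomial on the first axis and whose differences along the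
second factor are polynomial. -/
theorem of_prod {n : ℕ} {ψ : H × H' → B} (h0 : PolyLE (n + 1) fun x => ψ (x, 0))
    (h1 : ∀ b, PolyLE n fun z => ψ (z + (0, b)) - ψ z) : PolyLE (n + 1) ψ := by
  induction n generalizing ψ with
  | zero =>
    rintro ⟨a, b⟩
    have key : ∀ z : H × H', ψ (z + (a, b)) - ψ z =
        (ψ (0 + (0, b)) - ψ 0) + (ψ (0 + a, 0) - ψ (0, 0)) := by
      rintro ⟨x, y⟩
      have e1 := h1 b (x + a, y) 0
      have e2 := h1 y (x + a, 0) (x, 0)
      have e3 := h0 a x 0
      simp only [Prod.mk_add_mk, add_zero, zero_add] at e1 e2 e3 ⊢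
      rw [← e1, ← e3, ← sub_eq_zero, ← sub_eq_zero.2 e2]
      abel
    exact fun z z' => (key z).trans (key z').symm
  | succ n ih =>
    rintro ⟨a, b⟩
    have h2 : PolyLE (n + 1) fun z : H × H' => ψ (z + (a, 0)) - ψ z := by
      refine ih ((h0 a).congr fun x => by simp) fun c => (h1 c (a, 0)).congr fun z => ?_
      beta_reduce
      rw [add_right_comm z (0, c) (a, 0)]
      abel
    refine (((h1 b).shift (a, 0)).add h2).congr fun z => ?_
    rw [add_assoc z]
    simp

/-- Newton expansion along an arithmetic progression. -/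
theorem newton {n : ℕ} {f : H → B} (hf : PolyLE n f) (x a : H) (t : ℤ) :
    f (x + t • a) = ∑ k ∈ range (n + 1), Ring.choose t k • (fwdDiff a)^[k] f x := by
  induction n generalizing f t with
  | zero => simpa using hf _ _
  | succ n ih =>
    have step : ∀ t : ℤ, f (x + (t + 1) • a) - f (x + t • a) =
        ∑ k ∈ range (n + 1 + 1), Ring.choose (t + 1) k • (fwdDiff a)^[k] f x -
          ∑ k ∈ range (n + 1 + 1), Ring.choose t k • (fwdDiff a)^[k] f x := by
      intro t
      have := ih (hf a) t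
      rw [add_smul, one_smul, ← add_assoc, this, sum_range_succ' _ (n + 1),
        sum_range_succ' _ (n + 1), Ring.choose_zero_right, Ring.choose_zero_right,
        add_sub_add_right_eq_sub, ← sum_sub_distrib]
      refine sum_congr rfl fun k _ => ?_
      rw [← sub_smul, Ring.choose_succ_succ, add_sub_cancel_right, Function.iterate_succ_apply]
      rfl
    induction t using Int.induction_on with
    | zero => simp [sum_range_succ' _ (n + 1)]
    | succ t iht => rw [← sub_left_inj (a := f (x + (t : ℤ) • a)), step, iht]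
    | pred t iht =>
      have := step (-(t : ℤ) - 1)
      rw [sub_add_cancel, iht] at this
      exact sub_right_injective this

end PolyLE

theorem two_mul_choose (t : ℤ) : 2 * Ring.choose t 2 = t * (t - 1) := by
  have := Ring.descPochhammer_eq_factorial_smul_choose t 2
  rw [← Polynomial.eval_eq_smeval, descPochhammer_eval_eq_prod_range] at this
  simpa [prod_range_succ] using this.symm

theorem six_mul_choose (t : ℤ) : 6 * Ring.choose t 3 = t * (t - 1) * (t - 2) := by
  have := Ring.descPochhammer_eq_factorial_smul_choose t 3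
  rw [← Polynomial.eval_eq_smeval, descPochhammer_eval_eq_prod_range] at this
  simpa [prod_range_succ, Nat.factorial] using this.symm

/-- Newton expansion of a cubic map on the integers. -/
theorem newton3 {f : ℤ → B} (hf : PolyLE 3 f) : ∃ b₁ b₂ b₃ : B, ∀ t : ℤ,
    f t = f 0 + t • b₁ + Ring.choose t 2 • b₂ + Ring.choose t 3 • b₃ :=
  ⟨_, _, _, fun t => by simpa [sum_range_succ] using hf.newton 0 1 t⟩

/-- Newton expansion in the first variable. -/
theorem newton_prod {n : ℕ} {f : ℤ × H → B} (hf : PolyLE n f) : ∃ g : ℕ → H → B,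
    (∀ k, PolyLE (n - k) (g k)) ∧
      ∀ t y, f (t, y) = ∑ k ∈ range (n + 1), Ring.choose t k • g k y :=
  ⟨fun k y => (fwdDiff ((1, 0) : ℤ × H))^[k] f (0, y),
    fun k => (hf.iter (1, 0) k).pre (AddMonoidHom.inr ℤ H),
    fun t y => by simpa using hf.newton (0, y) (1, 0) t⟩

theorem sum_choose {ι : Type*} (s : Finset ι) (c t : ι → ℤ) {k : ℕ}
    (h : ∀ m ≤ k, ∑ i ∈ s, c i * t i ^ m = 0) : ∑ i ∈ s, c i * Ring.choose (t i) k = 0 := by
  have e : ∀ r : ℤ, (k.factorial : ℤ) * Ring.choose r k =
      ∑ m ∈ range (k + 1), (descPochhammer ℤ k).coeff m * r ^ m := fun r => by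
    rw [← nsmul_eq_mul, ← Ring.descPochhammer_eq_factorial_smul_choose,
      ← Polynomial.eval_eq_smeval, Polynomial.eval_eq_sum_range, descPochhammer_natDegree]
  refine mul_left_cancel₀ (a := (k.factorial : ℤ)) (by exact_mod_cast k.factorial_ne_zero) ?_
  rw [mul_zero, mul_sum]
  simp_rw [mul_left_comm (k.factorial : ℤ), e, mul_sum]
  rw [sum_comm]
  refine sum_eq_zero fun m hm => ?_
  simp_rw [mul_left_comm (c _)]
  rw [← mul_sum, h m (Nat.lt_succ_iff.1 (mem_range.1 hm)), mul_zero]

/-- A functional with vanishing moments kills polynomial maps. -/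
theorem kill {ι : Type*} (s : Finset ι) (c t : ι → ℤ) {n : ℕ} {f : ℤ → B} (hf : PolyLE n f)
    (h : ∀ m ≤ n, ∑ i ∈ s, c i * t i ^ m = 0) : ∑ i ∈ s, c i • f (t i) = 0 := by
  have e : ∀ r : ℤ, f r = ∑ k ∈ range (n + 1), Ring.choose r k • (fwdDiff 1)^[k] f 0 :=
    fun r => by simpa using hf.newton 0 1 r
  simp_rw [e, smul_sum, smul_smul]
  rw [sum_comm]
  refine sum_eq_zero fun k hk => ?_
  rw [← sum_smul, sum_choose s c t fun m hm =>
    h m (hm.trans (Nat.lt_succ_iff.1 (mem_range.1 hk))), zero_smul]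

/-- The same in two variables. -/
theorem kill2 {ι : Type*} (s : Finset ι) (c t u : ι → ℤ) {n : ℕ} {f : ℤ × ℤ → B}
    (hf : PolyLE n f) (h : ∀ k l, k + l ≤ n → ∑ i ∈ s, c i * t i ^ k * u i ^ l = 0) :
    ∑ i ∈ s, c i • f (t i, u i) = 0 := by
  obtain ⟨g, hg, e⟩ := newton_prod hf
  simp_rw [e, smul_sum, smul_smul]
  rw [sum_comm]
  refine sum_eq_zero fun k hk => ?_
  have hk' := Nat.lt_succ_iff.1 (mem_range.1 hk)
  refine kill s (fun i => c i * Ring.choose (t i) k) u (hg k) fun l hl => ?_
  simp_rw [mul_right_comm (c _) (Ring.choose _ _)]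
  refine sum_choose s _ t fun m hm => ?_
  simp_rw [mul_right_comm (c _) (u _ ^ l)]
  exact h m l (by omega)

/-- Two functionals with the same moments agree on polynomial maps. -/
theorem kill_eq {ι ι' : Type*} [Fintype ι] [Fintype ι'] (c t : ι → ℤ) (c' t' : ι' → ℤ) {n : ℕ}
    {f : ℤ → B} (hf : PolyLE n f) (h : ∀ m ≤ n, ∑ i, c i * t i ^ m = ∑ i, c' i * t' i ^ m) :
    ∑ i, c i • f (t i) = ∑ i, c' i • f (t' i) := by
  have := kill univ (Sum.elim c fun i => -c' i) (Sum.elim t t') hf fun m hm => by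
    simp [Fintype.sum_sum_type, h m hm]
  simpa [Fintype.sum_sum_type, add_neg_eq_zero] using this

theorem kill2_eq {ι ι' : Type*} [Fintype ι] [Fintype ι'] (c t u : ι → ℤ) (c' t' u' : ι' → ℤ)
    {n : ℕ} {f : ℤ × ℤ → B} (hf : PolyLE n f)
    (h : ∀ k l, k + l ≤ n → ∑ i, c i * t i ^ k * u i ^ l = ∑ i, c' i * t' i ^ k * u' i ^ l) :
    ∑ i, c i • f (t i, u i) = ∑ i, c' i • f (t' i, u' i) := by
  have := kill2 univ (Sum.elim c fun i => -c' i) (Sum.elim t t') (Sum.elim u u') hf
    fun k l hm => by simp [Fintype.sum_sum_type, h k l hm]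
  simpa [Fintype.sum_sum_type, add_neg_eq_zero] using this

/-! ### The antisymmetric functional -/

/-- The functional that kills cubic maps. -/
def Fa (N : ℕ) (f : ℤ → B) : B := ∑ j : Fin 4, cc N j • (f (tt N j) - f (-tt N j))

theorem sum_cc (N : ℕ) : ∑ j : Fin 4, cc N j = 6 * (N : ℤ) ^ 3 := by
  simp [Fin.sum_univ_four, cc, tt]
  ring

theorem Fa_congr (N : ℕ) {f g : ℤ → B}
    (h : ∀ j, f (tt N j) - f (-tt N j) = g (tt N j) - g (-tt N j)) : Fa N f = Fa N g :=
  sum_congr rfl fun j _ => by rw [h j]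

theorem Fa_add (N : ℕ) (f g : ℤ → B) : Fa N (fun t => f t + g t) = Fa N f + Fa N g := by
  simp only [Fa, ← sum_add_distrib, ← smul_add]
  exact sum_congr rfl fun j _ => by congr 1; abel

theorem Fa_post (N : ℕ) (f : ℤ → B) (ψ : B →+ B') : Fa N (fun t => ψ (f t)) = ψ (Fa N f) := by
  simp only [Fa, map_sum, map_zsmul, map_sub]

theorem Fa_neg (N : ℕ) (f : ℤ → B) : Fa N (fun t => -f t) = -Fa N f :=
  Fa_post N f negAddMonoidHom

theorem Fa_sub (N : ℕ) (f g : ℤ → B) : Fa N (fun t => f t - g t) = Fa N f - Fa N g := by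
  simp only [sub_eq_add_neg, Fa_add, Fa_neg]

theorem Fa_zsmul (N : ℕ) (f : ℤ → B) (k : ℤ) : Fa N (fun t => k • f t) = k • Fa N f :=
  Fa_post N f (zsmulAddGroupHom k)

theorem Fa_sum {ι : Type*} (N : ℕ) (s : Finset ι) (f : ι → ℤ → B) :
    Fa N (fun t => ∑ i ∈ s, f i t) = ∑ i ∈ s, Fa N (f i) := by
  simp only [Fa, ← sum_sub_distrib, smul_sum]
  exact sum_comm

theorem Fa_pre_neg (N : ℕ) (f : ℤ → B) : Fa N (fun t => f (-t)) = -Fa N f := by
  simp only [Fa, neg_neg, ← sum_neg_distrib, ← smul_neg, neg_sub]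

theorem Fa_kill2 (N : ℕ) {ψ : ℤ × ℤ → B} (hψ : PolyLE 3 ψ) :
    ∑ j : Fin 4, cc N j • (ψ (tt N j, (j : ℕ)) - ψ (-tt N j, (j : ℕ))) = 0 := by
  simp only [smul_sub, sum_sub_distrib, sub_eq_zero]
  refine kill2_eq _ _ _ _ _ _ hψ fun k l h => ?_
  have hk : k ≤ 3 := by omega
  have hl : l ≤ 3 := by omega
  interval_cases k <;> interval_cases l <;> first
    | omega
    | (simp only [Fin.sum_univ_four, cc, tt, Matrix.cons_val_zero, Matrix.cons_val_one,
        Matrix.cons_val, Fin.val_zero, Fin.val_one, Fin.val_two, show ((3 : Fin 4) : ℕ) = 3 from rfl]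
       push_cast
       ring)

theorem Fa_kill (N : ℕ) {f : ℤ → B} (hf : PolyLE 3 f) : Fa N f = 0 :=
  Fa_kill2 N (hf.pre (AddMonoidHom.fst ℤ ℤ))

/-- The one-sided functional on cubic maps: extrapolation to zero. -/
theorem sum_cc_tt (N : ℕ) {f : ℤ → B} (hf : PolyLE 3 f) :
    ∑ j : Fin 4, cc N j • f (tt N j) = (6 * (N : ℤ) ^ 3) • f 0 := by
  have := kill_eq (cc N) (tt N) (fun _ : Unit => 6 * (N : ℤ) ^ 3) (fun _ => 0) hf fun m h => by
    interval_cases m <;> simp [Fin.sum_univ_four, cc, tt] <;> ring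
  simpa using this

theorem sum_cc_mul (N N' : ℕ) {g : ℤ → B} (hg : PolyLE 3 g) :
    ∑ j : Fin 4, cc (N * N') j • g (N' * (j : ℕ)) =
      ((N' : ℤ) ^ 3) • ∑ j : Fin 4, cc N j • g (j : ℕ) := by
  simp only [smul_sum, smul_smul]
  refine kill_eq _ _ _ _ hg fun m h => ?_
  interval_cases m <;> simp [Fin.sum_univ_four, cc, tt] <;> ring

/-- Change of the level. -/
theorem Fa_mul (N N' : ℕ) {f : ℤ → B}
    (h : PolyLE 3 fun j : ℤ => f (1 + N * j) - f (-(1 + N * j))) :
    Fa (N * N') f = ((N' : ℤ) ^ 3) • Fa N f := by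
  have := sum_cc_mul N N' h
  unfold Fa
  convert this using 5 with j _ j _ j _ j _ <;> simp [tt] <;> ring_nf

/-- Interpolation from the multiples of `p`: integer weights after multiplication by `p ^ 3`. -/
theorem newton_p {g : ℤ → B} (hg : PolyLE 3 g) (p j c₂ c₃ : ℤ) (h₂ : 2 * c₂ = j * (j - p))
    (h₃ : 6 * c₃ = j * (j - p) * (j - 2 * p)) :
    p ^ 3 • g j = p ^ 3 • g 0 + (p ^ 2 * j) • (g p - g 0) + (p * c₂) • (g (2 * p) - 2 • g p + g 0) +
      c₃ • (g (3 * p) - 3 • g (2 * p) + 3 • g p - g 0) := by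
  have := kill_eq (fun _ : Unit => p ^ 3) (fun _ => j)
    ![p ^ 3 - p ^ 2 * j + p * c₂ - c₃, p ^ 2 * j - 2 * (p * c₂) + 3 * c₃, p * c₂ - 3 * c₃, c₃]
    ![0, p, 2 * p, 3 * p] hg fun m h => by
      interval_cases m <;> simp [Fin.sum_univ_four]
      · ring
      · ring
      · linear_combination (-p ^ 3) * h₂
      · linear_combination (-3 * p ^ 4) * h₂ - p ^ 3 * h₃
  simp only [Fin.sum_univ_four, univ_unique, sum_singleton, Matrix.cons_val_zero,
    Matrix.cons_val_one, Matrix.cons_val] at this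
  rw [this]
  module

theorem exists_c₂ (p j : ℤ) (hp : Odd p) : ∃ c₂, 2 * c₂ = j * (j - p) := by
  obtain ⟨q, rfl⟩ := hp
  obtain ⟨c, hc⟩ := Int.even_mul_pred_self j
  exact ⟨c - j * q, by linear_combination -hc⟩

theorem exists_c₃ (p j : ℤ) (hp : IsCoprime p 6) : ∃ c₃, 6 * c₃ = j * (j - p) * (j - 2 * p) := by
  have h : (6 : ℤ) ∣ j * (j - p) * (j - 2 * p) := by
    obtain ⟨a, b, hab⟩ := hp
    have key : ∀ a p j : ZMod 6, a * p = 1 → j * (j - p) * (j - 2 * p) = 0 := by decide
    have h1 : (a : ZMod 6) * p = 1 := by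
      have := congrArg (Int.cast : ℤ → ZMod 6) hab
      push_cast at this
      rwa [show (6 : ZMod 6) = 0 from rfl, mul_zero, add_zero] at this
    have := key a p j h1
    exact (ZMod.intCast_zmod_eq_zero_iff_dvd _ 6).1 (by push_cast; exact this)
  obtain ⟨c, hc⟩ := h
  exact ⟨c, hc.symm⟩

/-! ### Quasi-polynomial maps -/

/-- The differences along `L` are polynomial of degree at most `n`. -/
def QPoly (n : ℕ) (L : AddSubgroup H) (f : H → B) : Prop :=
  ∀ w ∈ L, PolyLE n fun x => f (x + w) - f x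

/-- The differences along `L` are quadratic. -/
abbrev QCub (L : AddSubgroup H) (f : H → B) : Prop := QPoly 2 L f

namespace QPoly

variable {n : ℕ} {L : AddSubgroup H} {f g : H → B}

theorem of_poly (hf : PolyLE (n + 1) f) : QPoly n L f := fun w _ => hf w

theorem of_per (hf : ∀ w ∈ L, ∀ x, f (x + w) = f x) : QPoly n L f := fun w hw =>
  (PolyLE.const n (0 : B)).congr fun x => by rw [hf w hw, sub_self]

theorem add (hf : QPoly n L f) (hg : QPoly n L g) : QPoly n L fun x => f x + g x := fun w hw =>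
  ((hf w hw).add (hg w hw)).congr fun x => by beta_reduce; abel

theorem post (hf : QPoly n L f) (ψ : B →+ B') : QPoly n L fun x => ψ (f x) := fun w hw =>
  ((hf w hw).post ψ).congr fun x => by beta_reduce; rw [map_sub]

theorem neg (hf : QPoly n L f) : QPoly n L fun x => -f x := hf.post negAddMonoidHom

theorem sub (hf : QPoly n L f) (hg : QPoly n L g) : QPoly n L fun x => f x - g x := fun w hw =>
  ((hf w hw).sub (hg w hw)).congr fun x => by beta_reduce; abel

theorem zsmul (hf : QPoly n L f) (k : ℤ) : QPoly n L fun x => k • f x :=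
  hf.post (zsmulAddGroupHom k)

theorem sum {ι : Type*} {f : ι → H → B} (s : Finset ι) (hf : ∀ i ∈ s, QPoly n L (f i)) :
    QPoly n L fun x => ∑ i ∈ s, f i x := fun w hw =>
  (PolyLE.sum s fun i hi => hf i hi w hw).congr fun x => by beta_reduce; rw [sum_sub_distrib]

theorem aff (hf : QPoly n L f) (φ : H' →+ H) (c : H) {L' : AddSubgroup H'}
    (h : ∀ w ∈ L', φ w ∈ L) : QPoly n L' fun x => f (φ x + c) := fun w hw =>
  ((hf _ (h w hw)).aff φ c).congr fun x => by beta_reduce; rw [map_add, add_right_comm]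

theorem pre (hf : QPoly n L f) (φ : H' →+ H) {L' : AddSubgroup H'}
    (h : ∀ w ∈ L', φ w ∈ L) : QPoly n L' fun x => f (φ x) := by
  simpa using hf.aff φ 0 h

theorem shift (hf : QPoly n L f) (c : H) : QPoly n L fun x => f (x + c) :=
  hf.aff (AddMonoidHom.id H) c fun _ h => h

theorem anti (hf : QPoly n L f) {L' : AddSubgroup H} (h : L' ≤ L) : QPoly n L' f :=
  fun w hw => hf w (h hw)

/-- It suffices to test generators. -/
theorem of_closure {S : Set H} (h : ∀ a ∈ S, PolyLE n fun x => f (x + a) - f x) :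
    QPoly n (AddSubgroup.closure S) f := by
  intro a ha
  induction ha using AddSubgroup.closure_induction with
  | mem a ha => exact h a ha
  | zero => simpa using PolyLE.const n (0 : B)
  | add a b _ _ ha hb =>
    exact ((ha.shift b).add hb).congr fun x => by rw [add_right_comm, add_assoc x a b]; abel
  | neg a _ ha => exact (ha.shift (-a)).neg.congr fun x => by simp

/-- The difference is jointly polynomial in the point and in the period. -/
theorem joint (hf : QPoly n L f) : PolyLE (n + 1) fun z : H × L => f (z.1 + z.2) - f z.1 := by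
  refine PolyLE.of_prod (by simpa using PolyLE.const (n + 1) (0 : B)) fun b => ?_
  refine ((hf b b.2).pre ((AddMonoidHom.fst H L) + L.subtype.comp (AddMonoidHom.snd H L))).congr
    fun z => ?_
  simp [add_assoc]

/-- The form in which it is used: `φ` and `μ` are affine, `μ` has values in `L`. -/
theorem param (hf : QPoly n L f) (φ μ : H' →+ H) (c w : H) (hμ : ∀ x, μ x ∈ L) (hw : w ∈ L) :
    PolyLE (n + 1) fun x => f (φ x + c + (μ x + w)) - f (φ x + c) :=
  hf.joint.aff (φ.prod (μ.codRestrict L hμ)) (c, ⟨w, hw⟩)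

theorem param₀ (hf : QPoly n L f) (φ μ : H' →+ H) (hμ : ∀ x, μ x ∈ L) :
    PolyLE (n + 1) fun x => f (φ x + μ x) - f (φ x) := by
  simpa using hf.param φ μ 0 0 hμ L.zero_mem

/-- On a coset of `L` the function is polynomial. -/
theorem coset (hf : QPoly n L f) (μ : H' →+ H) (c : H) (hμ : ∀ x, μ x ∈ L) :
    PolyLE (n + 1) fun x => f (c + μ x) := by
  have := (hf.param 0 μ c 0 hμ L.zero_mem).add (PolyLE.const (n + 1) (f c))
  simpa using this

theorem line (hf : QPoly n L f) (c : H) {w : H} (hw : w ∈ L) :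
    PolyLE (n + 1) fun t : ℤ => f (c + t • w) :=
  hf.coset (zmultiplesHom H w) c fun t => L.zsmul_mem hw t

end QPoly

/-- The normalised value. -/
def DD (N : ℕ) (f : H → B) (x : H) : B := Fa N fun t => f (t • x)

theorem DD_neg (N : ℕ) (f : H → B) (x : H) : DD N f (-x) = -DD N f x := by
  rw [DD, DD, ← Fa_pre_neg]
  simp

theorem DD_add (N : ℕ) (f g : H → B) (x : H) :
    DD N (fun y => f y + g y) x = DD N f x + DD N g x := Fa_add N _ _

theorem DD_sub (N : ℕ) (f g : H → B) (x : H) :
    DD N (fun y => f y - g y) x = DD N f x - DD N g x := Fa_sub N _ _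

theorem DD_post (N : ℕ) (f : H → B) (ψ : B →+ B') (x : H) :
    DD N (fun y => ψ (f y)) x = ψ (DD N f x) := Fa_post N _ ψ

theorem DD_zsmul (N : ℕ) (f : H → B) (k : ℤ) (x : H) :
    DD N (fun y => k • f y) x = k • DD N f x := Fa_zsmul N _ k

theorem DD_sum {ι : Type*} (N : ℕ) (s : Finset ι) (f : ι → H → B) (x : H) :
    DD N (fun y => ∑ i ∈ s, f i y) x = ∑ i ∈ s, DD N (f i) x := Fa_sum N s _

theorem DD_pre (N : ℕ) (f : H → B) (φ : H' →+ H) (x : H') :
    DD N (fun y => f (φ y)) x = DD N f (φ x) := by simp only [DD, map_zsmul]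

theorem DD_poly (N : ℕ) {f : H → B} (hf : PolyLE 3 f) (x : H) : DD N f x = 0 :=
  Fa_kill N (hf.pre (zmultiplesHom H x))

theorem DD_per (N : ℕ) {L : AddSubgroup H} {f : H → B} (hf : QCub L f) (x : H) {w : H}
    (hw : w ∈ L) : DD N f (x + w) = DD N f x := by
  rw [← sub_eq_zero, DD, DD, ← Fa_sub]
  refine Fa_kill N ((hf.param₀ (zmultiplesHom H x) (zmultiplesHom H w)
    fun t => L.zsmul_mem hw t).congr fun t => ?_)
  simp

theorem DD_mul (N N' : ℕ) {L : AddSubgroup H} {f : H → B} (hf : QCub L f) {x : H}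
    (hx : N • x ∈ L) : DD (N * N') f x = ((N' : ℤ) ^ 3) • DD N f x := by
  refine Fa_mul N N' (((hf.line x hx).sub (hf.line (-x) (L.neg_mem hx))).congr fun j => ?_)
  congr 2 <;> module

/-- The normalised value differs from `6 N ^ 3 (f x - f (-x))` by a cubic map. -/
theorem DD_cubic (N : ℕ) {L : AddSubgroup H} {f : H → B} (hf : QCub L f) (φ : H' →+ H)
    (hN : ∀ x, N • φ x ∈ L) :
    PolyLE 3 fun x => (6 * (N : ℤ) ^ 3) • (f (φ x) - f (-φ x)) - DD N f (φ x) := by
  have h1 : ∀ j : Fin 4, PolyLE 3 fun x => f (tt N j • φ x) - f (φ x) := fun j =>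
    (hf.param₀ φ ((nsmulAddMonoidHom ((j : ℕ) * N)).comp φ) fun x => by
      simpa [mul_nsmul'] using L.nsmul_mem (hN x) j).congr fun x => by
        congr 2
        simp only [tt, AddMonoidHom.comp_apply, nsmulAddMonoidHom_apply]
        module
  refine (PolyLE.sum univ fun j _ => ((h1 j).pre_neg.sub (h1 j)).zsmul (cc N j)).congr fun x => ?_
  rw [← sum_cc, sum_smul, DD, Fa, ← sum_sub_distrib]
  refine sum_congr rfl fun j _ => ?_
  simp only [map_neg, smul_neg, neg_smul]
  module

theorem DD_cubic_odd (N : ℕ) {L : AddSubgroup H} {f : H → B} (hf : QCub L f)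
    (hN : ∀ x, N • x ∈ L) (ho : ∀ x, f (-x) = -f x) :
    PolyLE 3 fun x => (12 * (N : ℤ) ^ 3) • f x - DD N f x :=
  (DD_cubic N hf (AddMonoidHom.id H) hN).congr fun x => by
    simp only [AddMonoidHom.id_apply, ho]
    module

end Pool.Agent.P.MP_29cb78_nt.E2
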