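import Mathlib

/-!
Functions on a finite abelian group with cyclic `p`-part whose convolution square vanishes in
characteristic `p`.
-/

namespace Pool.Agent.P.MP_29cb78_nt.E2

open Finset Polynomial
open scoped Classical

noncomputable section

variable {κ G : Type*} [Field κ] [AddCommGroup G] [Fintype G]

/-- The element of the group algebra with the given coefficients. -/
def toA (r : G → κ) : AddMonoidAlgebra κ G := ∑ x, AddMonoidAlgebra.single x (r x)

omit [AddCommGroup G] in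
lemma coeff_sum_single (φ : G → G) (r : G → κ) (y : G) :
    (∑ x, AddMonoidAlgebra.single (φ x) (r x) : AddMonoidAlgebra κ G).coeff y =
      ∑ x with φ x = y, r x := by
  rw [AddMonoidAlgebra.coeff_sum, Finsupp.finsetSum_apply, Finset.sum_filter]
  refine Finset.sum_congr rfl fun x _ => ?_
  rw [AddMonoidAlgebra.coeff_single, Finsupp.single_apply]

omit [AddCommGroup G] in
lemma coeff_toA (r : G → κ) (y : G) : (toA r).coeff y = r y := by
  have := coeff_sum_single id r y
  simp only [id] at this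
  rw [toA, this, Finset.sum_filter]
  simp

omit [AddCommGroup G] in
lemma toA_coeff (s : AddMonoidAlgebra κ G) : toA (fun x => s.coeff x) = s := by
  ext y
  rw [coeff_toA]

lemma toA_mul (r s : G → κ) : toA r * toA s = toA fun σ => ∑ x, r x * s (σ - x) := by
  ext y
  rw [coeff_toA, toA, Finset.sum_mul, AddMonoidAlgebra.coeff_sum, Finsupp.finsetSum_apply]
  refine Finset.sum_congr rfl fun x _ => ?_
  rw [AddMonoidAlgebra.coeff_single_mul_apply, coeff_toA, neg_add_eq_sub]

/-- The difference element. -/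
def dX (κ : Type*) [Field κ] (g : G) : AddMonoidAlgebra κ G := AddMonoidAlgebra.single g 1 - 1

lemma dX_dvd {g c : G} (hc : c ∈ AddSubgroup.zmultiples g) : dX κ g ∣ dX κ c := by
  obtain ⟨j, rfl⟩ := (mem_multiples_iff_mem_zmultiples.2 hc : c ∈ AddSubmonoid.multiples g)
  have := sub_dvd_pow_sub_pow (AddMonoidAlgebra.single g (1 : κ)) 1 j
  rwa [AddMonoidAlgebra.single_pow, one_pow, one_pow] at this

lemma dX_dvd_sub {g : G} (φ : G → G) (hφ : ∀ x, x - φ x ∈ AddSubgroup.zmultiples g) (r : G → κ) :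
    dX κ g ∣ toA r - ∑ x, AddMonoidAlgebra.single (φ x) (r x) := by
  rw [toA, ← Finset.sum_sub_distrib]
  refine Finset.dvd_sum fun x _ => (dX_dvd (hφ x)).trans ⟨AddMonoidAlgebra.single (φ x) (r x), ?_⟩
  rw [dX, sub_mul, AddMonoidAlgebra.single_mul_single, sub_add_cancel, one_mul, one_mul]

lemma dX_dvd_of_fib {g : G} (φ : G → G) (hφ : ∀ x, x - φ x ∈ AddSubgroup.zmultiples g)
    (r : G → κ) (h : ∀ y, ∑ x with φ x = y, r x = 0) : dX κ g ∣ toA r := by
  have h0 : (∑ x, AddMonoidAlgebra.single (φ x) (r x) : AddMonoidAlgebra κ G) = 0 := by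
    ext y
    rw [coeff_sum_single, h]
    rfl
  have := dX_dvd_sub φ hφ r
  rwa [h0, sub_zero] at this

variable (p : ℕ) [Fact p.Prime] [CharP κ p]

instance charA : CharP (AddMonoidAlgebra κ G) p :=
  charP_of_injective_algebraMap (algebraMap κ (AddMonoidAlgebra κ G)).injective p

omit [Fintype G] in
lemma dX_pow (g : G) (k : ℕ) : dX κ g ^ p ^ k = dX κ (p ^ k • g) := by
  rw [dX, sub_pow_char_pow, AddMonoidAlgebra.single_pow, one_pow, one_pow, dX]

lemma dX_dvd_of_nil {g : G} (hg : ¬ p ∣ (AddSubgroup.zmultiples g).index)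
    {s : AddMonoidAlgebra κ G} (hs : IsNilpotent s) : dX κ g ∣ s := by
  obtain ⟨n, hn⟩ := hs
  set m := (AddSubgroup.zmultiples g).index with hm
  have hp : p.Prime := Fact.out
  have hm0 : m ≠ 0 := AddSubgroup.index_ne_zero_of_finite
  have hco : Nat.Coprime p m := (Nat.Prime.coprime_iff_not_dvd hp).2 hg
  set k := m.totient * n with hk
  have h1 : p ^ k ≡ 1 [MOD m] := by
    have := (Nat.ModEq.pow_totient hco).pow n
    rwa [← pow_mul, one_pow] at this
  have h2 : n ≤ p ^ k :=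
    (Nat.le_mul_of_pos_left n (Nat.totient_pos.2 (Nat.pos_of_ne_zero hm0))).trans
      (Nat.lt_pow_self hp.one_lt).le
  have h3 : s ^ p ^ k = 0 := pow_eq_zero_of_le h2 hn
  rw [← toA_coeff s] at h3 ⊢
  refine dX_dvd_of_fib (fun x => p ^ k • x) (fun x => ?_) _ fun y => ?_
  · obtain ⟨c, hc⟩ := (Nat.modEq_iff_dvd' (Nat.one_le_pow _ _ hp.pos)).1 h1.symm
    have : p ^ k = m * c + 1 := by
      have := Nat.one_le_pow k p hp.pos
      omega
    rw [this, add_nsmul, one_nsmul, sub_add_cancel_right, mul_nsmul]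
    exact neg_mem (nsmul_mem (AddSubgroup.nsmul_index_mem _ x) c)
  · rw [toA, sum_pow_char_pow] at h3
    simp only [AddMonoidAlgebra.single_pow] at h3
    have h4 := coeff_sum_single (fun x => p ^ k • x) (fun x => s.coeff x ^ p ^ k) y
    rw [h3, ← sum_pow_char_pow] at h4
    exact pow_eq_zero_iff (pow_ne_zero k hp.ne_zero) |>.1 h4.symm

omit [Fintype G] in
lemma dX_pow_pred (g : G) (a : ℕ) :
    dX κ g ^ (p ^ a - 1) = ∑ j ∈ range (p ^ a), AddMonoidAlgebra.single (j • g) 1 := by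
  have hp : p.Prime := Fact.out
  have h1 : (X - 1 : κ[X]) ^ (p ^ a - 1) = ∑ j ∈ range (p ^ a), X ^ j := by
    have h0 : (X - 1 : κ[X]) ≠ 0 := by simpa using X_sub_C_ne_zero (1 : κ)
    apply mul_right_cancel₀ h0
    rw [geom_sum_mul, ← pow_succ, Nat.sub_add_cancel (Nat.one_le_pow _ _ hp.pos), sub_pow_char_pow,
      one_pow]
  have := congrArg (aeval (AddMonoidAlgebra.single g (1 : κ))) h1
  simpa [map_sum, AddMonoidAlgebra.single_pow, dX] using this

lemma dX_dvd_of_ann {g : G} {a : ℕ} (hg : addOrderOf g = p ^ a) {t : AddMonoidAlgebra κ G}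
    (ht : dX κ g ^ (p ^ a - 1) * t = 0) : dX κ g ∣ t := by
  set C := AddSubgroup.zmultiples g with hC
  rw [← toA_coeff t]
  refine dX_dvd_of_fib (fun x : G => (x : G ⧸ C).out) (fun x => ?_) (fun x => t.coeff x) fun y => ?_
  · have := QuotientAddGroup.eq.1 (Quotient.out_eq' (x : G ⧸ C))
    rwa [neg_add_eq_sub] at this
  · by_cases hy : (y : G ⧸ C).out = y
    · rw [dX_pow_pred p g a] at ht
      have h1 := congrArg (fun u : AddMonoidAlgebra κ G => u.coeff y) ht
      simp only [Finset.sum_mul, AddMonoidAlgebra.coeff_sum, Finsupp.finsetSum_apply,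
        AddMonoidAlgebra.coeff_single_mul_apply, one_mul, AddMonoidAlgebra.coeff_zero,
        Finsupp.coe_zero, Pi.zero_apply] at h1
      rw [← h1]
      symm
      refine Finset.sum_nbij (fun j => -(j • g) + y) (fun j _ => ?_) (fun i hi j hj hij => ?_)
        (fun x hx => ?_) fun _ _ => rfl
      · have : ((-(j • g) + y : G) : G ⧸ C) = y := by
          rw [QuotientAddGroup.eq]
          simpa using nsmul_mem (hC ▸ AddSubgroup.mem_zmultiples g : g ∈ C) j
        simp only [Finset.mem_filter, Finset.mem_univ, true_and]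
        rw [this, hy]
      · refine nsmul_injOn_Iio_addOrderOf (x := g) ?_ ?_ (by simpa using hij)
        · simpa [hg] using hi
        · simpa [hg] using hj
      · have hx' : (x : G ⧸ C).out = y := by simpa using hx
        have h2 : -x + y ∈ C := by
          rw [← QuotientAddGroup.eq, ← hx']
          exact (Quotient.out_eq' _).symm
        obtain ⟨j, hj, hj'⟩ := Finset.mem_image.1 (mem_zmultiples_iff_mem_range_addOrderOf.1 h2)
        refine ⟨j, by simpa [hg] using hj, ?_⟩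
        simp only [hj']
        abel
    · refine Finset.sum_eq_zero fun x hx => absurd ?_ hy
      have hx' : (x : G ⧸ C).out = y := by simpa using hx
      rw [← hx']
      congr 1
      exact Quotient.out_eq' _

lemma dX_pow_dvd {g : G} {a : ℕ} (hg : addOrderOf g = p ^ a)
    (hi : ¬ p ∣ (AddSubgroup.zmultiples g).index) {r : AddMonoidAlgebra κ G} (hr : r * r = 0)
    (i : ℕ) (h : 2 * i ≤ p ^ a + 1) : dX κ g ^ i ∣ r := by
  have hq : dX κ g ^ p ^ a = 0 := by
    rw [dX_pow, ← hg, addOrderOf_nsmul_eq_zero, dX, ← AddMonoidAlgebra.one_def, sub_self]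
  induction i with
  | zero => simp
  | succ i ih =>
    obtain ⟨s, rfl⟩ := ih (by omega)
    have h1 : dX κ g ^ (p ^ a - 1) * (s * s) = 0 := by
      rw [show p ^ a - 1 = (p ^ a - 1 - 2 * i) + i + i by omega, pow_add, pow_add]
      linear_combination dX κ g ^ (p ^ a - 1 - 2 * i) * hr
    obtain ⟨u, hu⟩ := dX_dvd_of_ann p hg h1
    have h2 : IsNilpotent s := ⟨2 * p ^ a, by rw [pow_mul, sq, hu, mul_pow, hq, zero_mul]⟩
    rw [pow_succ]
    exact mul_dvd_mul_left _ (dX_dvd_of_nil p hi h2)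

lemma fwd_eq (τ : G) (n : ℕ) (r : G → κ) :
    toA ((fwdDiff τ)^[n] r) = dX κ (-τ) ^ n * toA r := by
  induction n with
  | zero => simp
  | succ n ih =>
    rw [Function.iterate_succ_apply', pow_succ', mul_assoc, ← ih]
    ext y
    simp [dX, sub_mul, coeff_toA, fwdDiff, AddMonoidAlgebra.coeff_single_mul_apply, add_comm]

lemma fwd_zero {g : G} {a : ℕ} (hp2 : p ≠ 2) (hg : addOrderOf g = p ^ (a + 1))
    (hi : ¬ p ∣ (AddSubgroup.zmultiples g).index) {r : G → κ}
    (hr : ∀ σ, ∑ x, r x * r (σ - x) = 0) : (fwdDiff (p ^ a • g))^[(p + 1) / 2] r = 0 := by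
  have hp : p.Prime := Fact.out
  have hg' : addOrderOf (-g) = p ^ (a + 1) := by rwa [addOrderOf_neg]
  have hi' : ¬ p ∣ (AddSubgroup.zmultiples (-g)).index := by rwa [AddSubgroup.zmultiples_neg]
  have h0 : toA r * toA r = 0 := by
    rw [toA_mul]
    ext y
    rw [coeff_toA, hr]
    rfl
  obtain ⟨b, hb⟩ := hp.odd_of_ne_two hp2
  obtain ⟨c, hc⟩ := (hp.odd_of_ne_two hp2).pow (n := a + 1)
  obtain ⟨s, hs⟩ := dX_pow_dvd p hg' hi' h0 (c + 1) (by omega)
  have hq : dX κ (-g) ^ p ^ (a + 1) = 0 := by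
    rw [dX_pow, ← hg', addOrderOf_nsmul_eq_zero, dX, ← AddMonoidAlgebra.one_def, sub_self]
  funext y
  rw [← coeff_toA ((fwdDiff (p ^ a • g))^[(p + 1) / 2] r) y, fwd_eq, ← neg_nsmul, ← dX_pow p, hs, ← mul_assoc, ← pow_mul, ← pow_add,
    pow_eq_zero_of_le _ hq, zero_mul]
  · rfl
  · have h1 : (p + 1) / 2 = b + 1 := by omega
    have h2 : p ^ (a + 1) = p ^ a * (2 * b + 1) := by rw [pow_succ, ← hb]
    rw [h1]
    nlinarith [Nat.zero_le (p ^ a)]

omit [Fintype G] in
lemma poly_of_fwd {τ : G} {n : ℕ} (hn : n < p) {r : G → κ} (h : (fwdDiff τ)^[n + 1] r = 0)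
    (x : G) : ∃ f : κ[X], f.natDegree ≤ n ∧ ∀ j : ℕ, r (x + j • τ) = f.eval (j : κ) := by
  have hp : p.Prime := Fact.out
  refine ⟨∑ k ∈ range (n + 1), C ((fwdDiff τ)^[k] r x / (k.factorial : κ)) * descPochhammer κ k,
    natDegree_sum_le_of_forall_le _ _ fun k hk => (natDegree_C_mul_le _ _).trans ?_, fun j => ?_⟩
  · rw [descPochhammer_natDegree]
    exact Nat.lt_succ_iff.1 (mem_range.1 hk)
  · have h1 : ∀ k, n + 1 ≤ k → (fwdDiff τ)^[k] r x = 0 := fun k hk => by
      obtain ⟨l, rfl⟩ := Nat.exists_eq_add_of_le' hk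
      rw [Function.iterate_add_apply, h, Function.iterate_fixed]
      · rfl
      · funext y
        simp [fwdDiff]
    rw [shift_eq_sum_fwdDiff_iter τ r j x, eval_finsetSum,
      Finset.sum_subset (range_subset_range.2 (Nat.le_add_right (j + 1) (n + 1))),
      ← Finset.sum_subset (range_subset_range.2 (Nat.le_add_left (n + 1) (j + 1)))]
    · refine Finset.sum_congr rfl fun k hk => ?_
      have h2 : (k.factorial : κ) ≠ 0 := by
        rw [Ne, CharP.cast_eq_zero_iff κ p, hp.dvd_factorial]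
        have := mem_range.1 hk
        omega
      rw [eval_mul, eval_C, descPochhammer_eval_eq_descFactorial,
        Nat.descFactorial_eq_factorial_mul_choose, nsmul_eq_mul]
      push_cast
      field_simp
    · intro k _ hk
      rw [h1 k (by simpa using hk), smul_zero]
    · intro k _ hk
      rw [Nat.choose_eq_zero_of_lt (by simpa using hk), zero_smul]

omit [CharP κ p] in
lemma exists_gen {τ : G} (hτ : addOrderOf τ = p)
    (hc : ∀ x : G, p • x = 0 → x ∈ AddSubgroup.zmultiples τ) :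
    ∃ (g : G) (a : ℕ), addOrderOf g = p ^ (a + 1) ∧ ¬ p ∣ (AddSubgroup.zmultiples g).index ∧
      p ^ a • g = τ := by
  have hp : p.Prime := Fact.out
  have hb : ∀ a, (∃ g : G, p ^ a • g = τ) → a < Nat.card G := by
    rintro a ⟨g, rfl⟩
    have h1 : addOrderOf g = p ^ (a + 1) := by
      refine addOrderOf_eq_prime_pow (fun h => ?_) ?_
      · rw [h, addOrderOf_zero] at hτ
        exact hp.one_lt.ne hτ
      · have := addOrderOf_nsmul_eq_zero (p ^ a • g)
        rwa [hτ, ← mul_nsmul, ← pow_succ] at this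
    have h2 := Nat.le_of_dvd Nat.card_pos (addOrderOf_dvd_natCard g)
    have h3 := Nat.lt_pow_self (n := a + 1) hp.one_lt
    omega
  have h0 : ∃ g : G, p ^ 0 • g = τ := ⟨τ, by simp⟩
  set a := Nat.findGreatest (fun a => ∃ g : G, p ^ a • g = τ) (Nat.card G) with ha
  obtain ⟨g, hg⟩ : ∃ g : G, p ^ a • g = τ :=
    Nat.findGreatest_spec (P := fun a => ∃ g : G, p ^ a • g = τ) (Nat.zero_le _) h0
  have hmax : ¬ ∃ g : G, p ^ (a + 1) • g = τ := fun h =>
    Nat.findGreatest_is_greatest (Nat.lt_succ_self a) (hb _ h).le h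
  have hτ0 : τ ≠ 0 := fun h => by
    rw [h, addOrderOf_zero] at hτ
    exact hp.one_lt.ne hτ
  have hpτ : p • τ = 0 := by rw [← hτ, addOrderOf_nsmul_eq_zero]
  have h1 : addOrderOf g = p ^ (a + 1) :=
    addOrderOf_eq_prime_pow (fun h => hτ0 (hg ▸ h)) (by rw [pow_succ, mul_nsmul, hg, hpτ])
  refine ⟨g, a, h1, fun hd => ?_, hg⟩
  obtain ⟨y, hy⟩ := exists_prime_addOrderOf_dvd_card' (G := G ⧸ AddSubgroup.zmultiples g) p hd
  obtain ⟨x, rfl⟩ := QuotientAddGroup.mk_surjective y
  have h2 : p • x ∈ AddSubgroup.zmultiples g := by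
    rw [← QuotientAddGroup.eq_zero_iff, QuotientAddGroup.mk_nsmul, ← hy, addOrderOf_nsmul_eq_zero]
  have h3 : x ∉ AddSubgroup.zmultiples g := fun h => by
    rw [(QuotientAddGroup.eq_zero_iff x).2 h, addOrderOf_zero] at hy
    exact hp.one_lt.ne hy
  obtain ⟨j, hj⟩ := h2
  simp only at hj
  by_cases hpj : (p : ℤ) ∣ j
  · obtain ⟨i, rfl⟩ := hpj
    have h4 : x - i • g ∈ AddSubgroup.zmultiples τ :=
      hc _ (by rw [nsmul_sub, ← hj, mul_zsmul, natCast_zsmul, sub_self])
    have h5 : AddSubgroup.zmultiples τ ≤ AddSubgroup.zmultiples g :=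
      AddSubgroup.zmultiples_le_of_mem (hg ▸ nsmul_mem (AddSubgroup.mem_zmultiples g) _)
    have := add_mem (h5 h4) (zsmul_mem (AddSubgroup.mem_zmultiples g) i)
    exact h3 (by simpa using this)
  · obtain ⟨u, v, huv⟩ : IsCoprime (p : ℤ) j :=
      (Prime.coprime_iff_not_dvd (Nat.prime_iff_prime_int.1 hp)).2 hpj
    refine hmax ⟨v • x, ?_⟩
    have h4 : j • τ = p ^ (a + 1) • x := by
      rw [← hg, pow_succ', mul_nsmul, ← hj, smul_comm]
    have h5 : (p : ℤ) • τ = 0 := by rw [natCast_zsmul, hpτ]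
    rw [smul_comm, ← h4, ← mul_zsmul, show v * j = 1 - u * p by linear_combination huv, sub_zsmul,
      mul_zsmul, h5]
    simp

/-- On every coset of the subgroup of order `p` the function is a polynomial of small degree. -/
theorem sqz_poly (hp2 : p ≠ 2) {τ : G} (hτ : addOrderOf τ = p)
    (hc : ∀ x : G, p • x = 0 → x ∈ AddSubgroup.zmultiples τ) {r : G → κ}
    (hr : ∀ σ, ∑ x, r x * r (σ - x) = 0) (x : G) :
    ∃ f : κ[X], 2 * f.natDegree < p ∧ ∀ j : ℕ, r (x + j • τ) = f.eval (j : κ) := by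
  obtain ⟨g, a, h1, h2, rfl⟩ := exists_gen p hτ hc
  obtain ⟨b, hb⟩ := (Fact.out : p.Prime).odd_of_ne_two hp2
  have h3 := fwd_zero p hp2 h1 h2 hr
  rw [show (p + 1) / 2 = b + 1 by omega] at h3
  obtain ⟨f, hf, hf'⟩ := poly_of_fwd p (by omega) h3 x
  exact ⟨f, by omega, hf'⟩

omit [Fintype G] [Fact p.Prime] in
lemma eq_zero_of_roots {f : κ[X]} (s : Finset ℕ) (hs : s ⊆ range p) (h : f.natDegree < s.card)
    (h0 : ∀ j ∈ s, f.eval (j : κ) = 0) : f = 0 := by
  refine eq_zero_of_natDegree_lt_card_of_eval_eq_zero' f (s.image fun j : ℕ => (j : κ)) ?_ ?_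
  · intro y hy
    obtain ⟨j, hj, rfl⟩ := mem_image.1 hy
    exact h0 j hj
  · rwa [card_image_of_injOn]
    intro i hi j hj hij
    exact CharP.natCast_injOn_Iio κ p (mem_range.1 (hs hi)) (mem_range.1 (hs hj)) hij

/-- The support meets every coset in no point or in more than half of the points. -/
theorem sqz_supp (hp2 : p ≠ 2) {τ : G} (hτ : addOrderOf τ = p)
    (hc : ∀ x : G, p • x = 0 → x ∈ AddSubgroup.zmultiples τ) {r : G → κ}
    (hr : ∀ σ, ∑ x, r x * r (σ - x) = 0) {x : G} (hx : r x ≠ 0) :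
    2 * #{j ∈ range p | r (x + j • τ) = 0} < p := by
  obtain ⟨f, hf, hf'⟩ := sqz_poly p hp2 hτ hc hr x
  by_contra h
  have h0 : f = 0 := eq_zero_of_roots p {j ∈ range p | r (x + j • τ) = 0} (filter_subset _ _)
    (by omega) fun j hj => by rw [← hf', (mem_filter.1 hj).2]
  apply hx
  simpa [h0] using hf' 0

/-- A function without zeros is invariant if it and its inverse have convolution square zero. -/
theorem sqz_const (hp2 : p ≠ 2) {τ : G} (hτ : addOrderOf τ = p)
    (hc : ∀ x : G, p • x = 0 → x ∈ AddSubgroup.zmultiples τ) {r r' : G → κ}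
    (hr : ∀ σ, ∑ x, r x * r (σ - x) = 0) (hr' : ∀ σ, ∑ x, r' x * r' (σ - x) = 0)
    (h : ∀ x, r x * r' x = 1) (x : G) : r (x + τ) = r x := by
  obtain ⟨f, hf, hf'⟩ := sqz_poly p hp2 hτ hc hr x
  obtain ⟨f', hg, hg'⟩ := sqz_poly p hp2 hτ hc hr' x
  have h1 : f * f' - 1 = 0 := by
    refine eq_zero_of_roots p (range p) subset_rfl ?_ fun j _ => by
      rw [eval_sub, eval_mul, ← hf', ← hg', h, eval_one, sub_self]
    have h2 := natDegree_sub_le (f * f') 1
    have h3 := natDegree_mul_le (p := f) (q := f')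
    rw [natDegree_one] at h2
    rw [card_range]
    omega
  have h2 : f.natDegree = 0 := natDegree_eq_zero_of_isUnit (IsUnit.of_mul_eq_one f' (sub_eq_zero.1 h1))
  have h3 := hf' 0
  have h4 := hf' 1
  rw [eq_C_of_natDegree_eq_zero h2, eval_C] at h3 h4
  simpa using h4.trans h3.symm

end

end Pool.Agent.P.MP_29cb78_nt.E2
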